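import Pool.Agent.Work.MP_34725c_ag.Nd.Lin

/-! The common centraliser of two nilpotent maps that annihilate each other. -/

namespace Pool.Agent.Work.MP_34725c_ag.Nd

open Module LinearMap

variable {k V : Type} [Field k] [AddCommGroup V] [Module k V]

/-- Maps that preserve the range of `X` and commute with `X` there. -/
def WW (X : End k V) : Submodule k (End k V) where
  carrier := {f | ∀ v ∈ range X, f v ∈ range X ∧ f (X v) = X (f v)}
  add_mem' := fun {f g} hf hg v hv =>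
    ⟨(range X).add_mem (hf v hv).1 (hg v hv).1, by simp [(hf v hv).2, (hg v hv).2]⟩
  zero_mem' := fun v _ => ⟨(range X).zero_mem, by simp⟩
  smul_mem' := fun c f hf v hv => ⟨(range X).smul_mem c (hf v hv).1, by simp [(hf v hv).2]⟩

/-- Maps that send `A` into `B`. -/
def MM (A B : Submodule k V) : Submodule k (End k V) where
  carrier := {f | ∀ v ∈ A, f v ∈ B}
  add_mem' := fun {_ _} hf hg v hv => B.add_mem (hf v hv) (hg v hv)
  zero_mem' := fun _ _ => B.zero_mem
  smul_mem' := fun c _ hf v hv => B.smul_mem c (hf v hv)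

variable [FiniteDimensional k V]

theorem finrank_WW (X : End k V) :
    finrank k (CC X) + finrank k (ker X) * finrank k V ≤
      finrank k (WW X) + finrank k (ker X) ^ 2 := by
  have h0 := finrank_range_add_finrank_ker X
  have h1 := Submodule.finrank_sup_add_finrank_inf_eq (CC X) (HH (range X) ⊤)
  rw [finrank_HH (range X) ⊤ h0, finrank_top] at h1
  rw [← h1, sq, ← finrank_HH (range X) (ker X) h0]
  refine add_le_add (Submodule.finrank_mono (sup_le (fun f hf => ?_) fun f hf => ?_))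
    (Submodule.finrank_mono fun f hf => ⟨hf.2.1, fun v => ?_⟩)
  · rintro _ ⟨v, rfl⟩
    exact ⟨⟨f v, (mem_CC.1 hf v).symm⟩, mem_CC.1 hf _⟩
  · intro v hv
    rw [hf.1 v hv, hf.1 _ (mem_range_self X v), map_zero]
    exact ⟨Submodule.zero_mem _, rfl⟩
  · rw [mem_ker, ← mem_CC.1 hf.1 v, hf.2.1 _ (mem_range_self X v)]

theorem finrank_MM (A B : Submodule k V) {t : ℕ} (ht : finrank k A + t = finrank k V) :
    finrank k (MM A B) ≤ finrank k A * finrank k B + t * finrank k V := by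
  obtain ⟨A', hA⟩ := A.exists_isCompl
  let π : End k V := A.subtype ∘ₗ A.projectionOnto A' hA
  have h1 := finrank_HH A' B (t := finrank k A) (by
    rw [add_comm]; exact Submodule.finrank_add_eq_of_isCompl hA)
  have h2 := finrank_HH A ⊤ ht
  rw [finrank_top] at h2
  rw [← h1, ← h2]
  refine le_of_map _ (mulRight k π) _ _ (fun f hf => ⟨fun v hv => ?_, fun v => ?_⟩)
    fun f _ h => ⟨fun v hv => ?_, fun _ => trivial⟩
  · change f (A.projectionOnto A' hA v) = 0
    rw [Submodule.projectionOnto_apply_of_mem_right hA hv]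
    simp
  · exact hf _ (A.projectionOnto A' hA v).2
  · have : f (A.projectionOnto A' hA v) = 0 := LinearMap.congr_fun h v
    rwa [show (A.projectionOnto A' hA v : V) = v from
      congrArg Subtype.val (Submodule.projectionOnto_apply_left hA ⟨v, hv⟩)] at this

variable {X Y : End k V}

omit [FiniteDimensional k V] in
theorem cm_mem (hXY : ∀ v, X (Y v) = 0) {f : End k V} (hx : f ∈ WW X) (hy : f ∈ WW Y) :
    cm X f ∈ HH (range X ⊔ range Y) (range X) := by
  refine ⟨fun v hv => ?_, fun v => ?_⟩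
  · obtain ⟨a, ha, b, hb, rfl⟩ := Submodule.mem_sup.1 hv
    rw [map_add, cm_apply, cm_apply, (hx a ha).2, sub_self, zero_add]
    obtain ⟨w, hw⟩ := (hy b hb).1
    obtain ⟨b, rfl⟩ := hb
    rw [hXY, ← hw, hXY, map_zero, sub_self]
  · exact Submodule.sub_mem _ (hx _ (mem_range_self X v)).1 (mem_range_self X _)

theorem B1 (hXY : ∀ v, X (Y v) = 0) (hYX : ∀ v, Y (X v) = 0) {τ t : ℕ}
    (hτ : finrank k ↥(range X ⊔ range Y) + τ = finrank k V)
    (ht : finrank k ↥(range X ⊓ range Y) + t = finrank k V) :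
    finrank k (WW X) + finrank k (WW Y) ≤ finrank k ↥(CC X ⊓ CC Y) +
      τ * finrank k (range X) + τ * finrank k (range Y) +
      (finrank k ↥(range X ⊓ range Y) * finrank k ↥(range X ⊓ ker X ⊔ range Y ⊓ ker Y) +
        t * finrank k V) := by
  rw [← Submodule.finrank_sup_add_finrank_inf_eq, add_comm]
  refine add_le_add ?_ (le_trans (Submodule.finrank_mono (sup_le ?_ ?_)) (finrank_MM _ _ ht))
  · have h1 := le_of_map (WW X ⊓ WW Y) (cm X) _ ((WW X ⊓ WW Y) ⊓ CC X)
      (fun f hf => cm_mem hXY hf.1 hf.2) fun f hf h => ⟨hf, h⟩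
    have h2 := le_of_map ((WW X ⊓ WW Y) ⊓ CC X) (cm Y) _ (CC X ⊓ CC Y)
      (fun f hf => cm_mem hYX hf.1.2 hf.1.1) fun f hf h => ⟨hf.2, h⟩
    rw [finrank_HH _ _ hτ] at h1
    rw [finrank_HH _ _ (by rwa [sup_comm])] at h2
    omega
  · intro f hf v hv
    refine Submodule.mem_sup_left ⟨(hf v hv.1).1, ?_⟩
    obtain ⟨w, hw⟩ := hv.2
    rw [SetLike.mem_coe, mem_ker, ← (hf v hv.1).2, ← hw, hXY, map_zero]
  · intro f hf v hv
    refine Submodule.mem_sup_right ⟨(hf v hv.2).1, ?_⟩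
    obtain ⟨w, hw⟩ := hv.1
    rw [SetLike.mem_coe, mem_ker, ← (hf v hv.2).2, ← hw, hYX, map_zero]

theorem finrank_GG (X : End k V) :
    finrank k (CC X) ≤ finrank k ((CC X).map (mulRight k X)) + finrank k (ker X) ^ 2 := by
  rw [sq, ← finrank_HH (range X) (ker X) (finrank_range_add_finrank_ker X)]
  refine le_of_map _ (mulRight k X) _ _ (fun f hf => ⟨f, hf, rfl⟩) fun f hf h => ⟨?_, fun v => ?_⟩
  · rintro _ ⟨v, rfl⟩
    exact LinearMap.congr_fun h v
  · rw [mem_ker, ← mem_CC.1 hf]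
    exact LinearMap.congr_fun h v

omit [FiniteDimensional k V] in
theorem GG_le (hXY : ∀ v, X (Y v) = 0) (hYX : ∀ v, Y (X v) = 0) :
    (CC X).map (mulRight k X) ≤ (CC X ⊓ CC Y) ⊓ HH ⊥ (range X) := by
  rintro _ ⟨f, hf, rfl⟩
  have hf' := mem_CC.1 hf
  refine ⟨⟨mem_CC.2 fun v => ?_, mem_CC.2 fun v => ?_⟩, fun v hv => ?_, fun v => ⟨f v, ?_⟩⟩
  · exact hf' (X v)
  · change f (X (Y v)) = Y (f (X v))
    rw [hXY, hf', hYX, map_zero]
  · rw [(Submodule.mem_bot k).1 hv, map_zero]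
  · exact (hf' v).symm

theorem B2 (hXY : ∀ v, X (Y v) = 0) (hYX : ∀ v, Y (X v) = 0) (hne : range X ⊔ range Y ≠ ⊤) :
    finrank k (CC X) + finrank k (CC Y) + 1 ≤ finrank k ↥(CC X ⊓ CC Y) +
      finrank k ↥(range X ⊓ ker X) * finrank k ↥(range X ⊓ range Y) +
      finrank k (ker X) ^ 2 + finrank k (ker Y) ^ 2 := by
  have h1 := finrank_GG X
  have h2 := finrank_GG Y
  have h3 := Submodule.finrank_sup_add_finrank_inf_eq ((CC X).map (mulRight k X))
    ((CC Y).map (mulRight k Y))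
  have h4 : finrank k ↥((CC X).map (mulRight k X) ⊔ (CC Y).map (mulRight k Y)) <
      finrank k ↥(CC X ⊓ CC Y) := by
    refine Submodule.finrank_lt_finrank_of_lt (lt_of_le_of_ne (sup_le
      ((GG_le hXY hYX).trans inf_le_left)
      ((GG_le hYX hXY).trans (inf_le_left.trans (inf_comm _ _).le))) fun h => hne ?_)
    have : (1 : End k V) ∈ CC X ⊓ CC Y := ⟨mem_CC.2 fun _ => rfl, mem_CC.2 fun _ => rfl⟩
    rw [← h] at this
    obtain ⟨f, hf, g, hg, hfg⟩ := Submodule.mem_sup.1 this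
    refine eq_top_iff.2 fun v _ => ?_
    have e : f v + g v = v := LinearMap.congr_fun hfg v
    rw [← e]
    exact Submodule.add_mem_sup ((GG_le hXY hYX hf).2.2 v) ((GG_le hYX hXY hg).2.2 v)
  have h5 : finrank k ↥((CC X).map (mulRight k X) ⊓ (CC Y).map (mulRight k Y)) ≤
      finrank k ↥(range X ⊓ ker X) * finrank k ↥(range X ⊓ range Y) := by
    rw [← finrank_HH (range X ⊔ ker X) _ (by
      rw [Submodule.finrank_sup_add_finrank_inf_eq, finrank_range_add_finrank_ker])]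
    refine Submodule.finrank_mono fun f hf => ⟨fun v hv => ?_, fun v =>
      ⟨(GG_le hXY hYX hf.1).2.2 v, (GG_le hYX hXY hf.2).2.2 v⟩⟩
    obtain ⟨_, ⟨a, rfl⟩, b, hb, rfl⟩ := Submodule.mem_sup.1 hv
    obtain ⟨g, -, hg⟩ := hf.1
    obtain ⟨g', -, hg'⟩ := hf.2
    have e1 : f (X a) = 0 := by
      rw [← hg']
      change g' (Y (X a)) = 0
      rw [hYX, map_zero]
    have e2 : f b = 0 := by
      rw [← hg]
      change g (X b) = 0
      rw [mem_ker.1 hb, map_zero]
    rw [map_add, e1, e2, add_zero]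
  omega

theorem arith {h Z Z' q q' τ c s : ℤ} (e5 : q + q' = s + c) (m1 : c ≤ q) (m2 : c ≤ q')
    (k1 : Z + Z' + q ^ 2 + q' ^ 2 + τ * τ ≤ h + c * τ + c * s)
    (k2 : Z + Z' + q ^ 2 + q' ^ 2 + 1 ≤ h + q * c) : (τ + s) ^ 2 + 4 * (Z + Z') < 4 * h := by
  by_cases hc : τ = c ∧ τ = s
  · obtain ⟨rfl, rfl⟩ := hc
    obtain rfl : q = τ := by omega
    obtain rfl : q' = q := by omega
    nlinarith
  · have k3 : 0 < 2 * (τ - c) ^ 2 + (τ - s) ^ 2 := by
      rcases not_and_or.1 hc with h' | h'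
      · have : τ - c ≠ 0 := sub_ne_zero.2 h'
        positivity
      · have : τ - s ≠ 0 := sub_ne_zero.2 h'
        positivity
    have k4 : (s + c) ^ 2 ≤ 2 * (q ^ 2 + q' ^ 2) := by
      rw [← e5]
      nlinarith [sq_nonneg (q - q')]
    nlinarith

theorem arith2 {a b d h Z Z' τ s r₂ s₂ : ℕ} (hdd : d = τ + s + r₂ + s₂)
    (z1 : (r₂ : ℝ) ^ 2 ≤ a * Z) (z2 : (s₂ : ℝ) ^ 2 ≤ b * Z')
    (key : ((τ : ℤ) + s) ^ 2 + 4 * (Z + Z') < 4 * h) : d ^ 2 < (a + 2 + (b + 2)) * h := by
  have key' : ((τ : ℝ) + s) ^ 2 / 4 + Z + Z' < h := by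
    have : ((τ : ℝ) + s) ^ 2 + 4 * (Z + Z') < 4 * h := by exact_mod_cast key
    linarith
  have s1 := cs (u := (τ : ℝ) + s) (a := 4) (P := ((τ : ℝ) + s) ^ 2 / 4) (by norm_num)
    (by positivity) (by positivity) (by positivity) (le_of_eq (by ring)) z1
  have s2 := cs (by positivity) (by positivity) (by positivity) (by positivity) s1 z2
  have : (d : ℝ) ^ 2 < (a + 2 + (b + 2)) * h := by
    rw [hdd]
    push_cast
    refine s2.trans_lt ?_
    rw [show (a : ℝ) + 2 + (b + 2) = 4 + a + b by ring]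
    exact mul_lt_mul_of_pos_left key' (by positivity)
  exact_mod_cast this

omit [FiniteDimensional k V] in
theorem rad_ne_top [Nontrivial V] (hXY : ∀ v, X (Y v) = 0) (hYX : ∀ v, Y (X v) = 0) {a b : ℕ}
    (ha : X ^ a = 0) (hb : Y ^ b = 0) : range X ⊔ range Y ≠ ⊤ := by
  intro h
  have h0 : ∀ v : V, ∃ x y, X x + Y y = v := fun v => by
    obtain ⟨_, ⟨x, rfl⟩, _, ⟨y, rfl⟩, e⟩ := Submodule.mem_sup.1 (h ▸ Submodule.mem_top (x := v))
    exact ⟨x, y, e⟩
  have h1 : ∀ (n : ℕ) (v : V), ∃ x y, (X ^ n) (X x) + (Y ^ n) (Y y) = v := by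
    intro n
    induction n with
    | zero => exact h0
    | succ n ih =>
      intro v
      obtain ⟨x, y, rfl⟩ := ih v
      obtain ⟨x₁, y₁, rfl⟩ := h0 x
      obtain ⟨x₂, y₂, rfl⟩ := h0 y
      exact ⟨x₁, y₂, by simp [pow_succ, hXY, hYX]⟩
  obtain ⟨v, hv⟩ := exists_ne (0 : V)
  obtain ⟨x, y, rfl⟩ := h1 (a + b) v
  apply hv
  rw [pow_eq_zero_of_le (Nat.le_add_right a b) ha, pow_eq_zero_of_le (Nat.le_add_left b a) hb]
  simp

theorem core [Nontrivial V] (hXY : ∀ v, X (Y v) = 0) (hYX : ∀ v, Y (X v) = 0) {a b : ℕ}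
    (ha : X ^ (a + 2) = 0) (hb : Y ^ (b + 2) = 0) :
    finrank k V ^ 2 < (a + 2 + (b + 2)) * finrank k ↥(CC X ⊓ CC Y) := by
  obtain ⟨Z, r₂, e1, z1, c1⟩ := LE ha
  obtain ⟨Z', s₂, e2, z2, c2⟩ := LE hb
  obtain ⟨τ, hτ⟩ := Nat.exists_eq_add_of_le (range X ⊔ range Y).finrank_le
  obtain ⟨t, ht⟩ := Nat.exists_eq_add_of_le (range X ⊓ range Y).finrank_le
  have b1 := B1 hXY hYX hτ.symm ht.symm
  have w1 := finrank_WW X
  have w2 := finrank_WW Y
  have n1 := finrank_range_add_finrank_ker X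
  have n2 := finrank_range_add_finrank_ker Y
  have n3 := Submodule.finrank_sup_add_finrank_inf_eq (range X) (range Y)
  have n4 := Submodule.finrank_sup_add_finrank_inf_eq (range X ⊓ ker X) (range Y ⊓ ker Y)
  have hx : range X ⊓ range Y ≤ range X ⊓ ker X := by
    rintro v ⟨h, w, rfl⟩
    exact ⟨h, hXY w⟩
  have hy : range X ⊓ range Y ≤ range Y ⊓ ker Y := by
    rintro v ⟨⟨w, rfl⟩, h⟩
    exact ⟨h, hYX w⟩
  rw [show range X ⊓ ker X ⊓ (range Y ⊓ ker Y) = range X ⊓ range Y from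
    le_antisymm (inf_le_inf inf_le_left inf_le_left) (le_inf hx hy)] at n4
  have m1 := Submodule.finrank_mono hx
  have m2 := Submodule.finrank_mono hy
  have b2 := B2 hXY hYX (rad_ne_top hXY hYX ha hb)
  clear hx hy
  generalize finrank k ↥(CC X ⊓ CC Y) = h at *
  generalize finrank k ↥(range X ⊓ ker X ⊔ range Y ⊓ ker Y) = s at *
  generalize finrank k ↥(range X ⊓ ker X) = q at *
  generalize finrank k ↥(range Y ⊓ ker Y) = q' at *
  generalize finrank k ↥(range X ⊓ range Y) = c at *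
  generalize finrank k ↥(range X ⊔ range Y) = m at *
  generalize finrank k (range X) = r at *
  generalize finrank k (range Y) = ρ at *
  generalize finrank k (ker X) = p at *
  generalize finrank k (ker Y) = p' at *
  generalize finrank k (WW X) = W at *
  generalize finrank k (WW Y) = W' at *
  generalize finrank k (CC X) = C at *
  generalize finrank k (CC Y) = C' at *
  generalize finrank k V = d at *
  have k1 : Z + Z' + q ^ 2 + q' ^ 2 + τ * τ ≤ h + c * τ + c * s := by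
    have e3 : p * d + p' * d = t * d + τ * d := by
      rw [← add_mul, ← add_mul]
      congr 1
      omega
    have e4 : τ * d + c * τ = τ * r + τ * ρ + τ * τ := by
      have : d + c = r + ρ + τ := by omega
      calc τ * d + c * τ = τ * (d + c) := by ring
        _ = _ := by rw [this]; ring
    omega
  have k2 : Z + Z' + q ^ 2 + q' ^ 2 + 1 ≤ h + q * c := by omega
  exact arith2 (τ := τ) (s := s) (by omega) z1 z2 (arith (q := q) (q' := q') (c := c) (by omega)
    (by omega) (by omega) (by exact_mod_cast k1) (by exact_mod_cast k2))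

end Pool.Agent.Work.MP_34725c_ag.Nd
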