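import Mathlib.LinearAlgebra.FiniteDimensional.Lemmas
import Mathlib.LinearAlgebra.FreeModule.Finite.Matrix
import Mathlib.LinearAlgebra.Basis.VectorSpace
import Mathlib.Algebra.Algebra.Bilinear
import Mathlib.Tactic

/-! Dimension counts for centralisers. -/

namespace Pool.Agent.Work.MP_34725c_ag.Nd

open Module LinearMap

section gen

variable {k U W : Type} [Field k] [AddCommGroup U] [Module k U] [AddCommGroup W] [Module k W]
  [FiniteDimensional k U] [FiniteDimensional k W]

omit [FiniteDimensional k W] in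
theorem rn (P : Submodule k U) (φ : U →ₗ[k] W) :
    finrank k (P.map φ) + finrank k ↥(P ⊓ ker φ) = finrank k P := by
  have h := finrank_range_add_finrank_ker (φ.domRestrict P)
  rw [range_domRestrict, ker_domRestrict] at h
  rw [← h, ← Submodule.finrank_map_subtype_eq P (Submodule.comap P.subtype (ker φ)),
    Submodule.map_comap_subtype]

theorem le_of_map (P : Submodule k U) (φ : U →ₗ[k] W) (Q : Submodule k W) (R : Submodule k U)
    (h1 : ∀ f ∈ P, φ f ∈ Q) (h2 : ∀ f ∈ P, φ f = 0 → f ∈ R) :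
    finrank k P ≤ finrank k Q + finrank k R := by
  rw [← rn P φ]
  refine add_le_add (Submodule.finrank_mono ?_) (Submodule.finrank_mono ?_)
  · rintro _ ⟨f, hf, rfl⟩
    exact h1 f hf
  · exact fun f hf => h2 f hf.1 hf.2

theorem ge_of_map (P : Submodule k U) (φ : U →ₗ[k] W) (Q : Submodule k W) (R : Submodule k U)
    (h1 : ∀ g ∈ Q, ∃ f ∈ P, φ f = g) (h2 : ∀ f ∈ R, f ∈ P ∧ φ f = 0) :
    finrank k Q + finrank k R ≤ finrank k P := by
  rw [← rn P φ]
  exact add_le_add (Submodule.finrank_mono h1) (Submodule.finrank_mono h2)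

end gen

theorem cs {u v a b P Q : ℝ} (ha : 0 ≤ a) (hb : 0 ≤ b) (hP : 0 ≤ P) (hQ : 0 ≤ Q)
    (h1 : u ^ 2 ≤ a * P) (h2 : v ^ 2 ≤ b * Q) : (u + v) ^ 2 ≤ (a + b) * (P + Q) := by
  have h3 : (2 * u * v) ^ 2 ≤ (a * Q + b * P) ^ 2 := by
    have : u ^ 2 * v ^ 2 ≤ (a * P) * (b * Q) :=
      mul_le_mul h1 h2 (sq_nonneg _) (mul_nonneg ha hP)
    nlinarith [sq_nonneg (a * Q - b * P)]
  have h4 : 2 * u * v ≤ a * Q + b * P :=
    (abs_le_of_sq_le_sq' h3 (by positivity)).2
  nlinarith

variable {k V : Type} [Field k] [AddCommGroup V] [Module k V]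

/-- Endomorphisms that kill `A` and take values in `B`. -/
def HH (A B : Submodule k V) : Submodule k (End k V) where
  carrier := {f | (∀ v ∈ A, f v = 0) ∧ ∀ v, f v ∈ B}
  add_mem' := fun {f g} hf hg =>
    ⟨fun v hv => by simp [hf.1 v hv, hg.1 v hv], fun v => B.add_mem (hf.2 v) (hg.2 v)⟩
  zero_mem' := ⟨fun _ _ => rfl, fun _ => B.zero_mem⟩
  smul_mem' := fun c f hf =>
    ⟨fun v hv => by simp [hf.1 v hv], fun v => B.smul_mem c (hf.2 v)⟩

theorem mem_HH {A B : Submodule k V} {f : End k V} :
    f ∈ HH A B ↔ (∀ v ∈ A, f v = 0) ∧ ∀ v, f v ∈ B := Iff.rfl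

/-- The commutator with `X`. -/
def cm (X : End k V) : End k V →ₗ[k] End k V := mulRight k X - mulLeft k X

theorem cm_apply (X f : End k V) (v : V) : cm X f v = f (X v) - X (f v) := rfl

/-- The centraliser of `X`. -/
def CC (X : End k V) : Submodule k (End k V) := ker (cm X)

theorem mem_CC {X f : End k V} : f ∈ CC X ↔ ∀ v, f (X v) = X (f v) := by
  rw [CC, mem_ker, LinearMap.ext_iff]
  exact forall_congr' fun v => by rw [cm_apply, LinearMap.zero_apply, sub_eq_zero]

/-- Restriction of `N` to its range. -/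
def rr (N : End k V) : End k (range N) := N.restrict fun v _ => mem_range_self N v

theorem rr_coe (N : End k V) (u : range N) : (rr N u : V) = N u := rfl

theorem rr_pow_coe (N : End k V) (n : ℕ) (u : range N) : ((rr N ^ n) u : V) = (N ^ n) u := by
  induction n with
  | zero => rfl
  | succ n ih => rw [pow_succ', pow_succ', End.mul_apply, End.mul_apply, rr_coe, ih]

theorem rr_pow {N : End k V} {n : ℕ} (h : N ^ (n + 1) = 0) : rr N ^ n = 0 := by
  ext ⟨_, v, rfl⟩
  rw [rr_pow_coe]
  have := LinearMap.congr_fun h v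
  rw [pow_succ, End.mul_apply] at this
  simpa using this

variable [FiniteDimensional k V]

theorem finrank_HH (A B : Submodule k V) {t : ℕ} (ht : finrank k A + t = finrank k V) :
    finrank k (HH A B) = t * finrank k B := by
  let Φ : ((V ⧸ A) →ₗ[k] B) →ₗ[k] End k V := llcomp k V B V B.subtype ∘ₗ lcomp k B A.mkQ
  have hΦ : ∀ g v, Φ g v = g (A.mkQ v) := fun _ _ => rfl
  have hi : Function.Injective Φ := by
    intro g g' h
    refine LinearMap.ext fun w => ?_
    obtain ⟨v, rfl⟩ := A.mkQ_surjective w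
    exact Subtype.ext (by rw [← hΦ, ← hΦ, h])
  have hr : range Φ = HH A B := by
    ext f
    constructor
    · rintro ⟨g, rfl⟩
      refine ⟨fun v hv => ?_, fun v => (g (A.mkQ v)).2⟩
      rw [hΦ, Submodule.mkQ_apply, (Submodule.Quotient.mk_eq_zero A).2 hv, map_zero]
      rfl
    · intro hf
      refine ⟨A.liftQ (codRestrict B f hf.2) fun v hv => ?_, LinearMap.ext fun v => rfl⟩
      exact Subtype.ext (hf.1 v hv)
  rw [← hr, finrank_range_of_inj hi, finrank_linearMap]
  have := Submodule.finrank_quotient_add_finrank A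
  congr 1
  omega

theorem L2 (N : End k V) :
    finrank k (CC (rr N)) + finrank k (ker N) ^ 2 ≤ finrank k (CC N) := by
  obtain ⟨p, hp⟩ := (range N).subtype.exists_leftInverse_of_injective (Submodule.ker_subtype _)
  obtain ⟨s, hs⟩ := N.rangeRestrict.exists_rightInverse_of_surjective (range_rangeRestrict N)
  have hp' : ∀ u : range N, p u = u := fun u => LinearMap.congr_fun hp u
  have hs' : ∀ u : range N, N (s u) = u := fun u => congrArg Subtype.val (LinearMap.congr_fun hs u)
  let ψ : End k V →ₗ[k] End k (range N) :=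
    llcomp k (range N) V (range N) p ∘ₗ lcomp k V (range N).subtype
  have hψ : ∀ f (u : range N), ψ f u = p (f u) := fun _ _ => rfl
  have hK := finrank_HH (range N) (ker N) (finrank_range_add_finrank_ker N)
  rw [sq, ← hK]
  refine ge_of_map (CC N) ψ _ _ (fun g hg => ?_) fun f hf => ⟨mem_CC.2 fun v => ?_, ?_⟩
  · let f : End k V := (range N).subtype ∘ₗ g ∘ₗ p +
      s ∘ₗ g ∘ₗ N.rangeRestrict ∘ₗ (LinearMap.id - (range N).subtype ∘ₗ p)
    have hf : ∀ v, f v = g (p v) + s (g (N.rangeRestrict (v - p v))) := fun _ => rfl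
    have hf' : ∀ u : range N, f u = g u := fun u => by
      rw [hf, hp', sub_self, map_zero, map_zero, map_zero, add_zero]
    refine ⟨f, mem_CC.2 fun v => ?_, LinearMap.ext fun u => by rw [hψ, hf', hp']⟩
    have e1 : f (N v) = g (N.rangeRestrict v) := hf' (N.rangeRestrict v)
    have e2 : N.rangeRestrict (p v) = rr N (p v) := rfl
    rw [e1, hf, map_add, hs', map_sub, map_sub, e2, mem_CC.1 hg, Submodule.coe_sub, rr_coe]
    abel
  · rw [hf.1 _ (mem_range_self N v), mem_ker.1 (hf.2 v)]
  · exact LinearMap.ext fun u => by rw [hψ, hf.1 _ u.2, map_zero]; rfl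

omit [AddCommGroup V] [Module k V] [FiniteDimensional k V] in
theorem L1 (n : ℕ) : ∀ (V : Type) [AddCommGroup V] [Module k V] [FiniteDimensional k V]
    (N : End k V), N ^ n = 0 → (finrank k V : ℝ) ^ 2 ≤ n * finrank k (CC N) := by
  induction n with
  | zero =>
    intro V _ _ _ N h
    have : Subsingleton V := ⟨fun v w => by
      have h1 := LinearMap.congr_fun h v
      have h2 := LinearMap.congr_fun h w
      simp only [pow_zero, End.one_apply, LinearMap.zero_apply] at h1 h2
      rw [h1, h2]⟩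
    simp [finrank_zero_of_subsingleton]
  | succ n ih =>
    intro V _ _ _ N h
    have h1 := ih _ (rr N) (rr_pow h)
    have h2 : (finrank k (CC (rr N)) : ℝ) + (finrank k (ker N) : ℝ) ^ 2 ≤ finrank k (CC N) := by
      exact_mod_cast L2 N
    have h3 : (finrank k (range N) : ℝ) + finrank k (ker N) = finrank k V := by
      exact_mod_cast finrank_range_add_finrank_ker N
    have h4 := cs (b := 1) (Q := (finrank k (ker N) : ℝ) ^ 2) (v := finrank k (ker N))
      (by positivity) zero_le_one (by positivity) (by positivity) h1 (by rw [one_mul])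
    rw [h3] at h4
    push_cast
    exact h4.trans (mul_le_mul_of_nonneg_left h2 (by positivity))

theorem LE {N : End k V} {n : ℕ} (h : N ^ (n + 2) = 0) : ∃ Z r₂ : ℕ,
    finrank k ↥(range N ⊓ ker N) + r₂ = finrank k (range N) ∧ (r₂ : ℝ) ^ 2 ≤ n * Z ∧
      Z + finrank k ↥(range N ⊓ ker N) ^ 2 + finrank k (ker N) ^ 2 ≤ finrank k (CC N) := by
  have e : finrank k (ker (rr N)) = finrank k ↥(range N ⊓ ker N) := by
    have : ker (rr N) = (ker N).comap (range N).subtype := by
      ext u
      rw [mem_ker, Submodule.mem_comap, mem_ker, Subtype.ext_iff]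
      rfl
    rw [← Submodule.finrank_map_subtype_eq (range N) (ker (rr N)), this,
      Submodule.map_comap_subtype]
  refine ⟨finrank k (CC (rr (rr N))), finrank k (range (rr N)), ?_,
    L1 n _ _ (rr_pow (rr_pow h)), ?_⟩
  · rw [← e, add_comm]
    exact finrank_range_add_finrank_ker _
  · rw [← e]
    exact (add_le_add_left (L2 (rr N)) _).trans (L2 N)

end Pool.Agent.Work.MP_34725c_ag.Nd
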