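import Pool.Agent.Work.MP_34725c_ag.Nd.Core
import Pool.Agent.Work.MP_34725c_ag.TwMono

/-! The inequality `XP` for the algebras `k[y, z] / (y z, y ^ a - u z ^ b)`. -/

namespace Pool.Agent.Work.MP_34725c_ag.Nd

open Module LinearMap Pool.Agent.Work.MP_34725c_ag.Tw

variable {k A : Type} [Field k] [CommRing A] [Algebra k A] {y z : A}

theorem nf (hg : Algebra.adjoin k {y, z} = ⊤) (t : A) :
    ∃ (c : k) (t₁ t₂ : A), t = algebraMap k A c + y * t₁ + z * t₂ := by
  have ht : t ∈ Algebra.adjoin k {y, z} := hg ▸ Algebra.mem_top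
  induction ht using Algebra.adjoin_induction with
  | mem x hx =>
    rcases hx with rfl | rfl
    · exact ⟨0, 1, 0, by simp⟩
    · exact ⟨0, 0, 1, by simp⟩
  | algebraMap c => exact ⟨c, 0, 0, by simp⟩
  | add _ _ _ _ h h' =>
    obtain ⟨c, s₁, s₂, rfl⟩ := h
    obtain ⟨c', t₁, t₂, rfl⟩ := h'
    exact ⟨c + c', s₁ + t₁, s₂ + t₂, by rw [map_add]; ring⟩
  | mul _ x' _ _ h h' =>
    obtain ⟨c, s₁, s₂, rfl⟩ := h
    obtain ⟨c', t₁, t₂, e⟩ := h'
    refine ⟨c * c', algebraMap k A c * t₁ + s₁ * x', algebraMap k A c * t₂ + s₂ * x', ?_⟩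
    rw [map_mul]
    linear_combination (algebraMap k A c) * e

theorem unit_of (hy : IsNilpotent y) (hz : IsNilpotent z) {c : k} (hc : c ≠ 0) (t₁ t₂ : A) :
    IsUnit (algebraMap k A c + y * t₁ + z * t₂) := by
  rw [add_assoc]
  exact IsNilpotent.isUnit_add_left_of_commute
    ((Commute.all _ _).isNilpotent_add ((Commute.all _ _).isNilpotent_mul_right hy)
      ((Commute.all _ _).isNilpotent_mul_right hz)) ((IsUnit.mk0 c hc).map _) (Commute.all _ _)

theorem uni (hg : Algebra.adjoin k {y, z} = ⊤) (hyz : y * z = 0) (hz : IsNilpotent z) {a : ℕ}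
    (hy : y ^ (a + 1) = 0) (n : ℕ) : ∀ j, j + 1 + n = a → ∀ t : A,
      (∃ c : k, y ^ (j + 1) * t = c • y ^ a) ∨ ∃ s, y ^ (j + 1) * t * (y * s) = y ^ a := by
  induction n with
  | zero =>
    rintro j rfl t
    obtain ⟨c, t₁, t₂, rfl⟩ := nf hg t
    refine Or.inl ⟨c, ?_⟩
    rw [Algebra.smul_def]
    linear_combination t₁ * hy + (y ^ j * t₂) * hyz
  | succ n ih =>
    rintro j rfl t
    obtain ⟨c, t₁, t₂, e⟩ := nf hg t
    by_cases hc : c = 0
    · have e' : y ^ (j + 1) * t = y ^ (j + 1 + 1) * t₁ := by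
        rw [e, hc, map_zero]
        linear_combination (y ^ j * t₂) * hyz
      rw [e']
      exact ih (j + 1) (by omega) t₁
    · obtain ⟨v, hv⟩ := (e ▸ unit_of ⟨_, hy⟩ hz hc t₁ t₂ : IsUnit t).exists_right_inv
      exact Or.inr ⟨v * y ^ n, by linear_combination (y ^ (j + 1 + (n + 1))) * hv⟩

section

variable {a b : ℕ} {u : k}

theorem soc (hg : Algebra.adjoin k {y, z} = ⊤) (hyz : y * z = 0) (hu : u ≠ 0)
    (hw : y ^ (a + 1) = u • z ^ (b + 1)) {t : A} (ht : t ≠ 0) : ∃ s, t * s = y ^ (a + 1) := by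
  have hw' : z ^ (b + 1) = u⁻¹ • y ^ (a + 1) := by rw [hw, smul_smul, inv_mul_cancel₀ hu, one_smul]
  have hy : y ^ (a + 1 + 1) = 0 := by
    rw [pow_succ', hw, mul_smul_comm, pow_succ', ← mul_assoc, hyz, zero_mul, smul_zero]
  have hz : z ^ (b + 1 + 1) = 0 := by
    rw [pow_succ', hw', mul_smul_comm, pow_succ', ← mul_assoc, mul_comm z, hyz, zero_mul,
      smul_zero]
  obtain ⟨c, t₁, t₂, e⟩ := nf hg t
  by_cases hc : c = 0
  swap
  · obtain ⟨v, hv⟩ := (e ▸ unit_of ⟨_, hy⟩ ⟨_, hz⟩ hc t₁ t₂ : IsUnit t).exists_right_inv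
    exact ⟨v * y ^ (a + 1), by rw [← mul_assoc, hv, one_mul]⟩
  rw [hc, map_zero, zero_add] at e
  rcases uni hg hyz ⟨_, hz⟩ hy a 0 (by omega) t₁ with ⟨c₁, h₁⟩ | ⟨s, hs⟩
  swap
  · exact ⟨y * s, by rw [e]; linear_combination hs + (t₂ * s) * hyz⟩
  rcases uni (by rwa [Set.pair_comm]) (mul_comm y z ▸ hyz) ⟨_, hy⟩ hz b 0 (by omega) t₂ with
    ⟨c₂, h₂⟩ | ⟨s, hs⟩
  swap
  · refine ⟨u • (z * s), ?_⟩
    rw [mul_smul_comm, hw, e]
    congr 1
    linear_combination hs + (t₁ * s) * hyz
  rw [zero_add, pow_one] at h₁ h₂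
  rw [h₁, h₂, hw', smul_smul, ← add_smul] at e
  have h0 : c₁ + c₂ * u⁻¹ ≠ 0 := fun h => ht (by rw [e, h, zero_smul])
  exact ⟨algebraMap k A (c₁ + c₂ * u⁻¹)⁻¹, by
    rw [mul_comm, ← Algebra.smul_def, e, smul_smul, inv_mul_cancel₀ h0, one_smul]⟩

end

variable {V : Type} [AddCommGroup V] [Module A V] [Module k V] [IsScalarTower k A V]

theorem frob [FiniteDimensional k A] {θ : Dual k A} (hθ : ∀ t ≠ 0, ∃ s, θ (t * s) ≠ 0)
    (l : Dual k V) : ∃ π : V →ₗ[A] A, ∀ v t, θ (π v * t) = l (t • v) := by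
  let β : A →ₗ[k] Dual k A := (LinearMap.mul k A).compr₂ θ
  have hβ : ∀ t s, β t s = θ (t * s) := fun _ _ => rfl
  have hi : Function.Injective β := by
    rw [injective_iff_map_eq_zero]
    intro t h
    by_contra ht
    obtain ⟨s, hs⟩ := hθ t ht
    exact hs (by rw [← hβ, h, LinearMap.zero_apply])
  have hs : Function.Surjective β :=
    (injective_iff_surjective_of_finrank_eq_finrank Subspace.dual_finrank_eq.symm).1 hi
  choose π hπ using fun v : V => hs (l ∘ₗ (toSpanSingleton A V v).restrictScalars k)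
  have hπ' : ∀ v t, θ (π v * t) = l (t • v) := fun v t => by
    rw [← hβ, hπ]
    rfl
  refine ⟨⟨⟨π, fun v w => hi (LinearMap.ext fun t => ?_)⟩,
    fun c v => hi (LinearMap.ext fun t => ?_)⟩, hπ'⟩
  · rw [hβ, hβ, add_mul, map_add, hπ', hπ', hπ', smul_add, map_add]
  · rw [hβ, hβ, hπ', RingHom.id_apply, smul_eq_mul, mul_comm c, mul_assoc, hπ', smul_smul,
      mul_comm]

theorem finHom (k A V W : Type) [Field k] [CommRing A] [Algebra k A] [AddCommGroup V]
    [Module A V] [Module k V] [IsScalarTower k A V] [AddCommGroup W] [Module A W] [Module k W]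
    [IsScalarTower k A W] [FiniteDimensional k V] [FiniteDimensional k W] :
    FiniteDimensional k (V →ₗ[A] W) :=
  Module.Finite.of_injective (restrictScalarsₗ k A V W k) (restrictScalars_injective k)

theorem dual_le [FiniteDimensional k A] [FiniteDimensional k V] {θ : Dual k A}
    (hθ : ∀ t ≠ 0, ∃ s, θ (t * s) ≠ 0) : finrank k V ≤ finrank k (V →ₗ[A] A) := by
  have := finHom k A V A
  rw [← Subspace.dual_finrank_eq (V := V)]
  refine LinearMap.finrank_le_finrank_of_surjective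
    (f := llcomp k V A k θ ∘ₗ restrictScalarsₗ k A V A k) fun l => ?_
  obtain ⟨π, hπ⟩ := frob hθ l
  exact ⟨π, LinearMap.ext fun v => by simpa using hπ v 1⟩

theorem strict [FiniteDimensional k V] [Nontrivial V] (hg : Algebra.adjoin k {y, z} = ⊤)
    (hyz : y * z = 0) {a b : ℕ} (ha : ∀ v : V, y ^ (a + 2) • v = 0)
    (hb : ∀ v : V, z ^ (b + 2) • v = 0) :
    finrank k V ^ 2 < (a + 2 + (b + 2)) * finrank k (V →ₗ[A] V) := by
  have := finHom k A V V
  let L := Algebra.lsmul k k V (A := A)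
  have hL : ∀ t v, L t v = t • v := fun _ _ => rfl
  refine (core (X := L y) (Y := L z) (fun v => ?_) (fun v => ?_) ?_ ?_).trans_le
    (Nat.mul_le_mul_left _ ((Submodule.finrank_mono (t := range (restrictScalarsₗ k A V V k))
      fun f hf => ?_).trans (finrank_range_le _)))
  · rw [hL, hL, smul_smul, hyz, zero_smul]
  · rw [hL, hL, smul_smul, mul_comm, hyz, zero_smul]
  · rw [← map_pow]
    exact LinearMap.ext ha
  · rw [← map_pow]
    exact LinearMap.ext hb
  · have key : ∀ t ∈ Algebra.adjoin k {y, z}, ∀ v, f (t • v) = t • f v := by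
      intro t ht
      induction ht using Algebra.adjoin_induction with
      | mem x hx =>
        rcases hx with rfl | rfl
        · exact mem_CC.1 hf.1
        · exact mem_CC.1 hf.2
      | algebraMap c => exact fun v => by rw [algebraMap_smul, algebraMap_smul, map_smul]
      | add _ _ _ _ h h' => exact fun v => by rw [add_smul, add_smul, map_add, h, h']
      | mul _ _ _ _ h h' => exact fun v => by rw [mul_smul, mul_smul, h, h']
    exact ⟨⟨f.toAddHom, fun t v => key t (hg ▸ Algebra.mem_top) v⟩, rfl⟩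

theorem finrank_end_prod [FiniteDimensional k A] [FiniteDimensional k V] {θ : Dual k A}
    (hθ : ∀ t ≠ 0, ∃ s, θ (t * s) ≠ 0) :
    finrank k (V →ₗ[A] V) + 2 * finrank k V + finrank k A ≤ finrank k (V × A →ₗ[A] V × A) := by
  have := finHom k A V V
  have := finHom k A V A
  have := finHom k A V (V × A)
  have := finHom k A A (V × A)
  have h := dual_le (V := V) hθ
  rw [← (coprodEquiv k).finrank_eq, finrank_prod, (ringLmapEquivSelf A k (V × A)).finrank_eq,
    ← (prodEquiv k).finrank_eq, finrank_prod, finrank_prod]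
  omega

theorem arith3 {e d h H : ℕ} (h1 : h + 2 * d + e ≤ H) :
    (d ^ 2 ≤ e * h → (d + e) ^ 2 ≤ e * H) ∧ (e * H ≤ (d + e) ^ 2 → e * h ≤ d ^ 2) := by
  have := Nat.mul_le_mul_left e h1
  exact ⟨fun _ => by nlinarith, fun _ => by nlinarith⟩

theorem xp_node {a b : ℕ} {u : k} (hg : Algebra.adjoin k {y, z} = ⊤) (hyz : y * z = 0)
    (hu : u ≠ 0) (hw : y ^ (a + 2) = u • z ^ (b + 2)) (hd : finrank k A = a + 2 + (b + 2)) :
    XP k A := by
  have hpos : 0 < finrank k A := by omega
  have : FiniteDimensional k A := Module.finite_of_finrank_pos hpos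
  have : Nontrivial A := nontrivial_of_finrank_pos hpos
  have hw' : z ^ (b + 2) = u⁻¹ • y ^ (a + 2) := by rw [hw, smul_smul, inv_mul_cancel₀ hu, one_smul]
  have hy : y * y ^ (a + 2) = 0 := by
    rw [hw, mul_smul_comm, pow_succ', ← mul_assoc, hyz, zero_mul, smul_zero]
  have hz : z * y ^ (a + 2) = 0 := by
    rw [pow_succ', ← mul_assoc, mul_comm z, hyz, zero_mul]
  have hz' : z * z ^ (b + 2) = 0 := by rw [hw', mul_smul_comm, hz, smul_zero]
  have hne : y ^ (a + 2) ≠ 0 := by
    intro h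
    have := strict (V := A) hg hyz (a := a) (b := b) (fun v => by rw [h, zero_smul])
      fun v => by rw [hw', h, smul_zero, zero_smul]
    rw [(ringLmapEquivSelf A k A).finrank_eq, ← hd, sq] at this
    exact lt_irrefl _ this
  obtain ⟨θ, hθw⟩ : ∃ θ : Dual k A, θ (y ^ (a + 2)) ≠ 0 := by
    by_contra h
    push Not at h
    exact hne ((forall_dual_apply_eq_zero_iff k _).1 h)
  have hθ : ∀ t ≠ 0, ∃ s, θ (t * s) ≠ 0 := fun t ht => by
    obtain ⟨s, hs⟩ := soc hg hyz hu hw ht
    exact ⟨s, hs ▸ hθw⟩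
  refine ⟨inferInstance, inferInstance, fun V _ _ _ _ hV => ?_⟩
  induction hn : finrank k V using Nat.strong_induction_on generalizing V with
  | _ n ih =>
  subst hn
  have : FiniteDimensional k V := Module.Finite.trans A V
  by_cases h0 : ∀ v : V, y ^ (a + 2) • v = 0
  · rcases subsingleton_or_nontrivial V with _ | _
    · exact ⟨by simp [finrank_zero_of_subsingleton], fun _ => inferInstance⟩
    · have := strict hg hyz h0 (b := b) fun v => by rw [hw', smul_assoc, h0, smul_zero]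
      rw [hd]
      exact ⟨this.le, fun h => absurd this (not_lt.2 h)⟩
  · push Not at h0
    obtain ⟨v, hv⟩ := h0
    obtain ⟨l, hl⟩ : ∃ l : Dual k V, l (y ^ (a + 2) • v) ≠ 0 := by
      by_contra h
      push Not at h
      exact hv ((forall_dual_apply_eq_zero_iff k _).1 h)
    obtain ⟨π, hπ⟩ := frob hθ l
    have hun : IsUnit (π v) := by
      obtain ⟨c, t₁, t₂, e⟩ := nf hg (π v)
      rw [e]
      refine unit_of ⟨a + 2 + 1, by rw [pow_succ', hy]⟩ ⟨b + 2 + 1, by rw [pow_succ', hz']⟩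
        (fun hc => hl ?_) _ _
      rw [← hπ, e, hc, map_zero, ← θ.map_zero]
      congr 1
      linear_combination t₁ * hy + t₂ * hz
    obtain ⟨w, hw1⟩ := hun.exists_left_inv
    obtain ⟨e, -⟩ := (LinearMap.exact_subtype_ker_map π).splitSurjectiveEquiv
      (Submodule.injective_subtype _) ⟨toSpanSingleton A V (w • v), by
        ext
        simp [hw1]⟩
    have : IsNoetherianRing A := isNoetherian_of_tower k inferInstance
    have fin : Module.Finite A (ker π) := inferInstance
    have : FiniteDimensional k (ker π) := Module.Finite.trans A _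
    have e1 : finrank k V = finrank k (ker π) + finrank k A := by
      rw [(e.restrictScalars k).finrank_eq, finrank_prod]
    have e2 : finrank k (V →ₗ[A] V) = finrank k (ker π × A →ₗ[A] ker π × A) :=
      ((e.arrowCongr e).restrictScalars k).finrank_eq
    have e3 := finrank_end_prod (V := ker π) hθ
    obtain ⟨i1, i2⟩ := ih (finrank k (ker π)) (by omega) (ker π) inferInstance inferInstance
      inferInstance inferInstance fin rfl
    rw [e1, e2]
    refine ⟨(arith3 e3).1 i1, fun h => ?_⟩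
    have := i2 ((arith3 e3).2 h)
    exact Module.Projective.of_equiv e.symm

end Pool.Agent.Work.MP_34725c_ag.Nd
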